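import Pool.Agent.H38.AB.Targets

/-!
# NSU: the sum of the reciprocals of the radicals
-/

set_option autoImplicit false

open Pool.Agent.H38.RB Pool.Agent.H38.PS Pool.Agent.H82.RD Pool.Agent.H38.AB

namespace Pool.Agent.H93.AB

theorem nsu_pos (n : ℕ) : 0 < pd n.primeFactors := by
  unfold pd
  exact Finset.prod_pos fun p hp => (Nat.prime_of_mem_primeFactors hp).pos

/-- the part `(1)` -/
theorem nsu_mem (X : ℝ) (Ω V n : ℕ) (hn : n ≠ 0)
    (h1 : (pd n.primeFactors : ℝ) ≤ X) (h2 : n.primeFactors.card ≤ Ω)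
    (h3 : ∀ p, n.factorization p ≤ V) : n ∈ Nf X Ω V := by
  classical
  unfold Nf
  rw [Finset.mem_filter, Finset.mem_Icc]
  refine ⟨⟨Nat.one_le_iff_ne_zero.2 hn, ?_⟩, h1, h2, h3⟩
  have h4 : n = ∏ p ∈ n.primeFactors, p ^ n.factorization p := by
    conv_lhs => rw [← Nat.prod_factorization_pow_eq_self hn]
    rfl
  have h5 : n ≤ ∏ p ∈ n.primeFactors, p ^ V := by
    conv_lhs => rw [h4]
    exact Finset.prod_le_prod' fun p hp =>
      Nat.pow_le_pow_right (Nat.prime_of_mem_primeFactors hp).pos (h3 p)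
  rw [Finset.prod_pow] at h5
  refine h5.trans (Nat.pow_le_pow_left ?_ V)
  exact Nat.le_floor h1

/-- the number of the `n` with a given radical -/
theorem nsu_card (X : ℝ) (Ω V t : ℕ) :
    ((Nf X Ω V).filter fun n => pd n.primeFactors = t).card ≤ (V + 1) ^ Ω := by
  classical
  set F := (Nf X Ω V).filter fun n => pd n.primeFactors = t with hF
  rcases F.eq_empty_or_nonempty with h0 | ⟨m, hm⟩
  · rw [h0]
    exact Nat.zero_le _
  have hdat : ∀ n ∈ F, n ≠ 0 ∧ n.primeFactors = t.primeFactors ∧ n.primeFactors.card ≤ Ω ∧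
      ∀ p, n.factorization p ≤ V := by
    intro n hn
    rw [hF, Finset.mem_filter] at hn
    obtain ⟨h1, h2⟩ := hn
    unfold Nf at h1
    rw [Finset.mem_filter, Finset.mem_Icc] at h1
    refine ⟨by omega, ?_, h1.2.2.1, h1.2.2.2⟩
    rw [← h2]
    unfold pd
    exact (Nat.primeFactors_prod fun p hp => Nat.prime_of_mem_primeFactors hp).symm
  have hc : F.card ≤ (Fintype.piFinset fun _ : t.primeFactors => Finset.range (V + 1)).card := by
    refine Finset.card_le_card_of_injOn (fun n => fun p : t.primeFactors => n.factorization p)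
      ?_ ?_
    · intro n hn
      rw [Finset.mem_coe, Fintype.mem_piFinset]
      intro p
      rw [Finset.mem_range]
      exact Nat.lt_succ_of_le ((hdat n hn).2.2.2 p)
    · intro n hn n' hn' h
      obtain ⟨a1, a2, -, -⟩ := hdat n hn
      obtain ⟨b1, b2, -, -⟩ := hdat n' hn'
      refine Nat.eq_of_factorization_eq a1 b1 fun p => ?_
      by_cases hp : p ∈ t.primeFactors
      · exact congrFun h ⟨p, hp⟩
      · rw [← Nat.support_factorization] at a2 b2
        have c1 : p ∉ n.factorization.support := by rwa [a2]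
        have c2 : p ∉ n'.factorization.support := by rwa [b2]
        rw [Finsupp.notMem_support_iff] at c1 c2
        rw [c1, c2]
  rw [Fintype.card_piFinset] at hc
  simp only [Finset.card_range, Finset.prod_const, Finset.card_univ, Fintype.card_coe] at hc
  obtain ⟨-, a2, a3, -⟩ := hdat m hm
  rw [a2] at a3
  exact hc.trans (Nat.pow_le_pow_right (Nat.succ_pos V) a3)

theorem pf_NSU : T_NSU := by
  intro X Ω V hX
  refine ⟨fun n h0 h1 h2 h3 => nsu_mem X Ω V n h0 h1 h2 h3, ?_⟩
  classical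
  have hlog : 0 ≤ Real.log X := Real.log_nonneg (by linarith)
  have hmap : ∀ n ∈ Nf X Ω V, pd n.primeFactors ∈ Finset.Icc 1 ⌊X⌋₊ := by
    intro n hn
    unfold Nf at hn
    rw [Finset.mem_filter] at hn
    rw [Finset.mem_Icc]
    exact ⟨nsu_pos n, Nat.le_floor hn.2.1⟩
  have h1 : ∑ n ∈ Nf X Ω V, 1 / (pd n.primeFactors : ℝ) ≤
      ∑ t ∈ Finset.Icc 1 ⌊X⌋₊, ((V : ℝ) + 1) ^ Ω * (t : ℝ)⁻¹ := by
    rw [← Finset.sum_fiberwise_of_maps_to hmap]
    refine Finset.sum_le_sum fun t ht => ?_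
    have h2 : ∑ n ∈ (Nf X Ω V).filter (fun n => pd n.primeFactors = t),
        1 / (pd n.primeFactors : ℝ) =
        (((Nf X Ω V).filter fun n => pd n.primeFactors = t).card : ℝ) * (t : ℝ)⁻¹ := by
      rw [← nsmul_eq_mul, ← Finset.sum_const]
      refine Finset.sum_congr rfl fun n hn => ?_
      rw [(Finset.mem_filter.1 hn).2, one_div]
    rw [h2]
    have h3 := nsu_card X Ω V t
    have h4 : (((Nf X Ω V).filter fun n => pd n.primeFactors = t).card : ℝ) ≤
        ((V : ℝ) + 1) ^ Ω := by exact_mod_cast h3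
    exact mul_le_mul_of_nonneg_right h4 (by positivity)
  have h5 : ∑ t ∈ Finset.Icc 1 ⌊X⌋₊, (t : ℝ)⁻¹ ≤ 1 + Real.log X := by
    have h6 := harmonic_floor_le_one_add_log X (by linarith)
    rw [harmonic_eq_sum_Icc] at h6
    push_cast at h6
    exact h6
  rw [← Finset.mul_sum] at h1
  refine h1.trans ?_
  have hV : (0 : ℝ) ≤ (V : ℝ) := Nat.cast_nonneg V
  calc ((V : ℝ) + 1) ^ Ω * ∑ t ∈ Finset.Icc 1 ⌊X⌋₊, (t : ℝ)⁻¹
      ≤ ((V : ℝ) + 1) ^ Ω * (1 + Real.log X) :=
        mul_le_mul_of_nonneg_left h5 (by positivity)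
    _ ≤ (((V : ℝ) + 2) * (4 * Real.log X + 4)) ^ Ω *
        (((V : ℝ) + 2) * (4 * Real.log X + 4)) := by
        refine mul_le_mul ?_ ?_ (by positivity) (by positivity)
        · refine pow_le_pow_left₀ (by positivity) ?_ Ω
          nlinarith
        · nlinarith
    _ = Lo 1 X Ω V := by
        unfold Lo
        rw [one_mul, pow_succ]

end Pool.Agent.H93.AB
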