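import Pool.Agent.H38.AB.Targets
import Pool.Agent.H13.PS.LP2
import Pool.Agent.H13.RD.TQC

/-!
# TRM: the triples of very large height
-/

set_option autoImplicit false

open Pool.Agent.H38.RB Pool.Agent.H38.PS Pool.Agent.H82.RD Pool.Agent.H38.AB Pool.Agent.H13.PS

namespace Pool.Agent.H93.AB

/-! ## Triples -/

theorem sum_perm {x : Fin 3 → ℤ} (hx : Adm x) {a b c : Fin 3} (hab : a ≠ b) (hac : a ≠ c)
    (hbc : b ≠ c) : x a + x b + x c = 0 := by
  have h := hx.2.2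
  fin_cases a <;> fin_cases b <;> fin_cases c <;>
    first
    | exact absurd rfl hab
    | exact absurd rfl hac
    | exact absurd rfl hbc
    | (simp only [Fin.zero_eta, Fin.mk_one, Fin.reduceFinMk]; linarith)

theorem two_other : ∀ i : Fin 3, ∃ b c : Fin 3, i ≠ b ∧ i ≠ c ∧ b ≠ c := by decide

theorem two_large {x : Fin 3 → ℤ} (hx : Adm x) :
    ∃ a b : Fin 3, a ≠ b ∧ ht x ≤ 2 * (x a).natAbs ∧ ht x ≤ 2 * (x b).natAbs := by
  have h1 : ∃ a, ht x ≤ (x a).natAbs := by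
    unfold ht
    rcases le_total (x 0).natAbs (max (x 1).natAbs (x 2).natAbs) with h | h
    · rcases le_total (x 1).natAbs (x 2).natAbs with h' | h'
      · exact ⟨2, by rw [max_eq_right h, max_eq_right h']⟩
      · exact ⟨1, by rw [max_eq_right h, max_eq_left h']⟩
    · exact ⟨0, by rw [max_eq_left h]⟩
  obtain ⟨a, ha⟩ := h1
  obtain ⟨b, c, hab, hac, hbc⟩ := two_other a
  have h3 := sum_perm hx hab hac hbc
  have h4 : ht x ≤ (x b).natAbs + (x c).natAbs := by omega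
  rcases Nat.lt_or_ge (2 * (x b).natAbs) (ht x) with h | h
  · exact ⟨a, c, hac, by omega, by omega⟩
  · exact ⟨a, b, hab, by omega, h⟩

theorem sq_modEq {x : Fin 3 → ℤ} (hx : Adm x) {a b c : Fin 3} (hab : a ≠ b) (hac : a ≠ c)
    (hbc : b ≠ c) {q e : ℕ} (he : e ≤ (x a).natAbs.factorization q) :
    (x b).natAbs ^ 2 ≡ (x c).natAbs ^ 2 [MOD q ^ e] := by
  rw [Nat.modEq_iff_dvd]
  push_cast
  rw [sq_abs, sq_abs]
  have h1 : ((q ^ e : ℕ) : ℤ) ∣ x a := by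
    rw [Int.natCast_dvd]
    exact (pow_dvd_pow q he).trans (Nat.ordProj_dvd _ _)
  push_cast at h1
  have h2 := sum_perm hx hab hac hbc
  have h3 : x c ^ 2 - x b ^ 2 = x a * (x b - x c) := by
    have : x a = -(x b + x c) := by linarith
    rw [this]
    ring
  rw [h3]
  exact h1.mul_right _

theorem tp_of_sub {S : Finset ℕ} {m : ℕ} (hm : m ≠ 0) (h : m.primeFactors ⊆ S) :
    ∏ p ∈ S, p ^ m.factorization p = m := by
  have h1 : tp S m = tp m.primeFactors m := tp_congr h fun q _ hq => hq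
  rw [tp_self hm] at h1
  exact h1

theorem dpt_of {x : Fin 3 → ℤ} (hx : Adm x) {a b c : Fin 3} (hab : a ≠ b) (hac : a ≠ c)
    (hbc : b ≠ c) {q e Bd : ℕ} {S R : Finset ℕ} (hb : (x b).natAbs.primeFactors ⊆ S ∪ R)
    (hc : (x c).natAbs.primeFactors ⊆ S ∪ R)
    (hR : ∀ p ∈ R, (x c).natAbs.factorization p ≠ (x b).natAbs.factorization p)
    (hBd : ∀ i p, (x i).natAbs.factorization p ≤ Bd)
    (he : e ≤ (x a).natAbs.factorization q) : Dpt q e Bd S R := by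
  refine ⟨(x c).natAbs.factorization, (x b).natAbs.factorization,
    fun p _ => ⟨hBd _ _, hBd _ _⟩, hR, ?_⟩
  rw [tp_of_sub (adm_ne hx b) hb, tp_of_sub (adm_ne hx c) hc]
  exact sq_modEq hx hab hac hbc he

theorem fac_ne {x : Fin 3 → ℤ} (hx : Adm x) {b c : Fin 3} (hbc : b ≠ c) {p : ℕ}
    (hp : p ∈ (x b).natAbs.primeFactors) :
    (x c).natAbs.factorization p ≠ (x b).natAbs.factorization p := by
  have h1 : p ∉ (x c).natAbs.primeFactors :=
    Finset.disjoint_left.1 (adm_cop hx hbc).disjoint_primeFactors hp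
  rw [fac_zero h1]
  rw [← Nat.support_factorization, Finsupp.mem_support_iff] at hp
  exact hp.symm

/-- the properties of the sets which are counted -/
def Okk (X q e Ω : ℕ) (S R : Finset ℕ) : Prop :=
  S.card + R.card ≤ Ω ∧ Disjoint S R ∧ (∀ p ∈ R, p.Prime ∧ p ≠ q) ∧ pd R ≤ X ∧
    Dpt q e (X ^ 30) S R

theorem pd_mono {S T : Finset ℕ} (hT : ∀ p ∈ T, p.Prime) (h : S ⊆ T) : pd S ≤ pd T := by
  unfold pd
  exact Finset.prod_le_prod_of_subset_of_one_le' h fun q hq _ => (hT q hq).one_lt.le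

theorem core {x : Fin 3 → ℤ} (hx : Adm x) {a b c : Fin 3} (hab : a ≠ b) (hac : a ≠ c)
    (hbc : b ≠ c) {X e Ω q q' : ℕ} (hpd : pd (pr x).primeFactors ≤ X)
    (hΩ : (pr x).primeFactors.card ≤ Ω) (hBd : ∀ i p, (x i).natAbs.factorization p ≤ X ^ 30)
    (hq : q ∈ (x a).natAbs.primeFactors) (hqe : e ≤ (x a).natAbs.factorization q)
    (hq' : q' ∈ (x b).natAbs.primeFactors) (hqe' : e ≤ (x b).natAbs.factorization q') :
    ∃ R₁ R₂ : Finset ℕ, Okk X q e Ω ∅ R₁ ∧ q' ∈ R₁ ∧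
      Okk X q' e Ω (insert q (R₁.erase q')) R₂ ∧
      (pr x).primeFactors ⊆ insert q (R₁ ∪ R₂) := by
  classical
  have hpf := pf_perm hx hab hac hbc
  have dab := (adm_cop hx hab).disjoint_primeFactors
  have dac := (adm_cop hx hac).disjoint_primeFactors
  have dbc := (adm_cop hx hbc).disjoint_primeFactors
  set A := (x a).natAbs.primeFactors with hA
  set B := (x b).natAbs.primeFactors with hB
  set D := (x c).natAbs.primeFactors with hD
  have hPp : ∀ p ∈ (pr x).primeFactors, p.Prime := fun p hp => Nat.prime_of_mem_primeFactors hp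
  have hqA : ∀ p ∈ B ∪ D, p ≠ q := by
    rintro p hp rfl
    rcases Finset.mem_union.1 hp with h | h
    · exact Finset.disjoint_left.1 dab hq h
    · exact Finset.disjoint_left.1 dac hq h
  have hq'A : ∀ p ∈ A, p ≠ q' := by
    rintro p hp rfl
    exact Finset.disjoint_left.1 dab hp hq'
  have hq'D : q' ∉ D := Finset.disjoint_left.1 dbc hq'
  have hcA : (A ∪ (B ∪ D)).card = (pr x).primeFactors.card := by
    rw [hpf, Finset.union_assoc]
  have hdA : Disjoint A (B ∪ D) := Finset.disjoint_union_right.2 ⟨dab, dac⟩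
  rw [Finset.card_union_of_disjoint hdA] at hcA
  refine ⟨B ∪ D, A.erase q, ⟨?_, Finset.disjoint_empty_left _, ?_, ?_, ?_⟩,
    Finset.mem_union_left _ hq', ⟨?_, ?_, ?_, ?_, ?_⟩, ?_⟩
  · rw [Finset.card_empty, zero_add]
    omega
  · intro p hp
    refine ⟨hPp p ?_, hqA p hp⟩
    rw [hpf, Finset.union_assoc]
    exact Finset.mem_union_right _ hp
  · refine (pd_mono hPp ?_).trans hpd
    rw [hpf, Finset.union_assoc]
    exact Finset.subset_union_right
  · refine dpt_of hx hab hac hbc ?_ ?_ ?_ hBd hqe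
    · rw [Finset.empty_union]
      exact Finset.subset_union_left
    · rw [Finset.empty_union]
      exact Finset.subset_union_right
    · intro p hp
      rcases Finset.mem_union.1 hp with h | h
      · exact fac_ne hx hbc h
      · exact (fac_ne hx hbc.symm h).symm
  · have h1 : (insert q ((B ∪ D).erase q')).card ≤ (B ∪ D).card := by
      refine (Finset.card_insert_le _ _).trans ?_
      rw [Finset.card_erase_of_mem (Finset.mem_union_left _ hq')]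
      have : 0 < (B ∪ D).card := Finset.card_pos.2 ⟨q', Finset.mem_union_left _ hq'⟩
      omega
    have h2 : (A.erase q).card ≤ A.card := Finset.card_erase_le
    omega
  · rw [Finset.disjoint_insert_left]
    refine ⟨Finset.notMem_erase _ _, ?_⟩
    exact (hdA.symm.mono_left (Finset.erase_subset _ _)).mono_right (Finset.erase_subset _ _)
  · intro p hp
    have hpA := Finset.mem_of_mem_erase hp
    exact ⟨Nat.prime_of_mem_primeFactors hpA, hq'A p hpA⟩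
  · refine (pd_mono hPp ?_).trans hpd
    rw [hpf, Finset.union_assoc]
    exact (Finset.erase_subset _ _).trans Finset.subset_union_left
  · refine dpt_of hx hab.symm hbc hac ?_ ?_ ?_ hBd hqe'
    · intro p hp
      by_cases h : p = q
      · subst h
        exact Finset.mem_union_left _ (Finset.mem_insert_self _ _)
      · exact Finset.mem_union_right _ (Finset.mem_erase.2 ⟨h, hp⟩)
    · intro p hp
      refine Finset.mem_union_left _ (Finset.mem_insert_of_mem (Finset.mem_erase.2 ⟨?_, ?_⟩))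
      · rintro rfl
        exact hq'D hp
      · exact Finset.mem_union_right _ hp
    · intro p hp
      exact fac_ne hx hac (Finset.mem_of_mem_erase hp)
  · rw [hpf]
    intro p hp
    rw [Finset.union_assoc, Finset.mem_union] at hp
    rw [Finset.mem_insert, Finset.mem_union, Finset.mem_erase]
    rcases hp with h | h
    · by_cases hpq : p = q
      · exact Or.inl hpq
      · exact Or.inr (Or.inr ⟨hpq, h⟩)
    · exact Or.inr (Or.inl h)

/-! ## Counting -/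

/-- the sets which are counted -/
noncomputable def FF (X q e Ω : ℕ) (S : Finset ℕ) : Finset (Finset ℕ) := by
  classical
  exact ((Finset.range (X + 1)).powerset).filter fun R => Okk X q e Ω S R

theorem mem_FF {X q e Ω : ℕ} {S R : Finset ℕ} : R ∈ FF X q e Ω S ↔ Okk X q e Ω S R := by
  classical
  unfold FF
  rw [Finset.mem_filter, Finset.mem_powerset]
  refine ⟨fun h => h.2, fun h => ⟨fun p hp => ?_, h⟩⟩
  have h1 : p ∣ pd R := Finset.dvd_prod_of_mem (fun p => p) hp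
  have h2 : 0 < pd R := Finset.prod_pos fun p hp => (h.2.2.1 p hp).1.pos
  exact Finset.mem_range.2 (Nat.lt_succ_of_le ((Nat.le_of_dvd h2 h1).trans h.2.2.2.1))

/-- the supports -/
noncomputable def UU (X e Ω Y : ℕ) : Finset (Finset ℕ) := by
  classical
  exact ((Finset.Icc 1 Y).filter Nat.Prime).biUnion fun q => (FF X q e Ω ∅).biUnion fun R₁ =>
    R₁.biUnion fun q' => (FF X q' e Ω (insert q (R₁.erase q'))).image fun R₂ =>
      insert q (R₁ ∪ R₂)

theorem mem_UU {X e Ω Y : ℕ} {T : Finset ℕ} : T ∈ UU X e Ω Y ↔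
    ∃ q, q.Prime ∧ q ≤ Y ∧ ∃ R₁, Okk X q e Ω ∅ R₁ ∧ ∃ q' ∈ R₁, ∃ R₂,
      Okk X q' e Ω (insert q (R₁.erase q')) R₂ ∧ T = insert q (R₁ ∪ R₂) := by
  classical
  unfold UU
  simp only [Finset.mem_biUnion, Finset.mem_filter, Finset.mem_Icc, Finset.mem_image, mem_FF]
  constructor
  · rintro ⟨q, ⟨⟨-, h1⟩, h2⟩, R₁, h3, q', h4, R₂, h5, h6⟩
    exact ⟨q, h2, h1, R₁, h3, q', h4, R₂, h5, h6.symm⟩
  · rintro ⟨q, h2, h1, R₁, h3, q', h4, R₂, h5, h6⟩
    exact ⟨q, ⟨⟨h2.one_lt.le, h1⟩, h2⟩, R₁, h3, q', h4, R₂, h5, h6.symm⟩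

theorem UU_data {X e Ω Y : ℕ} {T : Finset ℕ} (h : T ∈ UU X e Ω Y) :
    (∀ p ∈ T, p.Prime) ∧ T.card + 1 ≤ 2 * Ω + 2 := by
  classical
  obtain ⟨q, h2, h1, R₁, h3, q', h4, R₂, h5, rfl⟩ := mem_UU.1 h
  constructor
  · intro p hp
    rw [Finset.mem_insert, Finset.mem_union] at hp
    rcases hp with rfl | hp | hp
    exacts [h2, (h3.2.2.1 p hp).1, (h5.2.2.1 p hp).1]
  · have c1 := Finset.card_insert_le q (R₁ ∪ R₂)
    have c2 := Finset.card_union_le R₁ R₂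
    have c3 := h3.1
    have c4 := h5.1
    omega

theorem card_UU {X e Ω Y N : ℕ} (hY : Y ≤ X)
    (hN : ∀ (q : ℕ) (S : Finset ℕ), q.Prime → q ≤ X → (∀ l ∈ S, l.Prime ∧ l ≠ q) →
      (FF X q e Ω S).card ≤ N) : (UU X e Ω Y).card ≤ Y * (N * (Ω * N)) := by
  classical
  unfold UU
  have h0 : ((Finset.Icc 1 Y).filter Nat.Prime).card ≤ Y := by
    refine (Finset.card_filter_le _ _).trans ?_
    rw [Nat.card_Icc]
    omega
  refine (Finset.card_biUnion_le_card_mul _ _ (N * (Ω * N)) fun q hq => ?_).trans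
    (Nat.mul_le_mul_right _ h0)
  rw [Finset.mem_filter, Finset.mem_Icc] at hq
  refine (Finset.card_biUnion_le_card_mul _ _ (Ω * N) fun R₁ hR₁ => ?_).trans
    (Nat.mul_le_mul_right _ (hN q ∅ hq.2 (hq.1.2.trans hY) (by simp)))
  rw [mem_FF] at hR₁
  have h1 : R₁.card ≤ Ω := by
    have := hR₁.1
    omega
  refine (Finset.card_biUnion_le_card_mul _ _ N fun q' hq' => ?_).trans
    (Nat.mul_le_mul_right _ h1)
  refine Finset.card_image_le.trans (hN q' _ (hR₁.2.2.1 q' hq').1 ?_ ?_)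
  · have h2 : q' ∣ pd R₁ := Finset.dvd_prod_of_mem (fun p => p) hq'
    have h3 : 0 < pd R₁ := Finset.prod_pos fun p hp => (hR₁.2.2.1 p hp).1.pos
    exact (Nat.le_of_dvd h3 h2).trans hR₁.2.2.2.1
  · intro l hl
    rw [Finset.mem_insert, Finset.mem_erase] at hl
    rcases hl with rfl | ⟨h2, h3⟩
    · exact ⟨hq.2, (hR₁.2.2.1 q' hq').2.symm⟩
    · exact ⟨(hR₁.2.2.1 l h3).1, h2⟩

/-! ## Numbers -/

theorem log_ceil {X : ℝ} (hX : 1 ≤ X) : Real.log (⌈X⌉₊ : ℕ) ≤ Real.log X + Real.log 2 := by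
  have h1 : ((⌈X⌉₊ : ℕ) : ℝ) ≤ X * 2 := by
    have := Nat.ceil_lt_add_one (by linarith : 0 ≤ X)
    linarith
  have h2 : (0 : ℝ) < (⌈X⌉₊ : ℕ) := by
    exact_mod_cast Nat.ceil_pos.2 (by linarith)
  refine (Real.log_le_log h2 h1).trans ?_
  rw [Real.log_mul (by linarith) (by norm_num)]

theorem natlog_le {X : ℝ} (hX : 1 ≤ Real.log X) (hX1 : 1 ≤ X) :
    ((Nat.log 2 ⌈X⌉₊ : ℕ) : ℝ) + 1 ≤ 4 * Real.log X := by
  have h0 : 0 < ⌈X⌉₊ := Nat.ceil_pos.2 (by linarith)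
  have h1 : (2 : ℝ) ^ (Nat.log 2 ⌈X⌉₊) ≤ (⌈X⌉₊ : ℕ) := by
    exact_mod_cast Nat.pow_log_le_self 2 h0.ne'
  have h2 := Real.log_le_log (by positivity) h1
  rw [Real.log_pow] at h2
  have h3 := log_ceil hX1
  have h4 := Real.log_two_gt_d9
  have h5 : (0 : ℝ) ≤ ((Nat.log 2 ⌈X⌉₊ : ℕ) : ℝ) := Nat.cast_nonneg _
  have h6 := Real.log_two_lt_d9
  nlinarith

theorem num_fin (β ε C : ℝ) (hβ0 : 0 ≤ β) (hβ : β < 1 / 2) (hε : 0 < ε) (hC : 1 ≤ C) :
    ∃ Y₁ : ℝ, 1 ≤ Y₁ ∧ ∀ (X : ℝ) (Ω : ℕ), 1 ≤ X → Y₁ ≤ Real.log X →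
      (Ω : ℝ) ≤ Real.log X ^ β →
      ((((Nat.log 2 ⌈X⌉₊ + 1) * Ω + 1) ^ Ω * (Ω * ((Nat.log 2 ⌈X⌉₊ + 1) * Ω + 1) ^ Ω) : ℕ) : ℝ) *
        C ^ (2 * Ω + 2) ≤ X ^ ε := by
  set δ : ℝ := (1 - β) / 2 with hδ
  have hδ0 : 0 < δ := by rw [hδ]; linarith
  set K : ℝ := 8 * (5 * C) ^ (δ / 2) / δ with hK
  have hK0 : 0 < K := by positivity
  refine ⟨max 1 ((K / ε) ^ (1 / δ)), le_max_left _ _, ?_⟩
  intro X Ω hX hy hΩ
  set y : ℝ := Real.log X with hyd
  have hy1 : 1 ≤ y := (le_max_left _ _).trans hy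
  have hy2 : (K / ε) ^ (1 / δ) ≤ y := (le_max_right _ _).trans hy
  have hy0 : 0 < y := by linarith
  have hM := natlog_le (X := X) hy1 hX
  rw [← hyd] at hM
  set l : ℝ := ((Nat.log 2 ⌈X⌉₊ : ℕ) : ℝ) with hl
  have hl0 : 0 ≤ l := Nat.cast_nonneg _
  have hyβ : y ^ β ≤ y := by
    conv_rhs => rw [← Real.rpow_one y]
    exact Real.rpow_le_rpow_of_exponent_le hy1 (by linarith)
  have hyβ1 : 1 ≤ y ^ β := Real.one_le_rpow hy1 hβ0
  have hΩ0 : (0 : ℝ) ≤ Ω := Nat.cast_nonneg _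
  have hin : (l + 1) * Ω + 1 ≤ 5 * y ^ 2 := by
    have h1 : (l + 1) * Ω ≤ 4 * y * y := mul_le_mul hM (hΩ.trans hyβ) hΩ0 (by linarith)
    nlinarith
  have hin0 : 0 ≤ (l + 1) * Ω + 1 := by positivity
  have hz1 : 1 ≤ 5 * y ^ 2 := by nlinarith
  have h1 : ((l + 1) * Ω + 1) ^ Ω ≤ (5 * y ^ 2) ^ Ω := pow_le_pow_left₀ hin0 hin Ω
  have h2 : (Ω : ℝ) ≤ (5 * y ^ 2) ^ 2 := by
    have : (Ω : ℝ) ≤ y := hΩ.trans hyβ
    nlinarith [mul_pos hy0 hy0]
  have hcast : ((((Nat.log 2 ⌈X⌉₊ + 1) * Ω + 1) ^ Ω *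
      (Ω * ((Nat.log 2 ⌈X⌉₊ + 1) * Ω + 1) ^ Ω) : ℕ) : ℝ) =
      ((l + 1) * Ω + 1) ^ Ω * (Ω * ((l + 1) * Ω + 1) ^ Ω) := by
    rw [hl]
    push_cast
    ring
  rw [hcast]
  have h3 : ((l + 1) * Ω + 1) ^ Ω * (Ω * ((l + 1) * Ω + 1) ^ Ω) * C ^ (2 * Ω + 2) ≤
      (5 * C * y ^ 2) ^ (2 * Ω + 2) := by
    have h4 : (5 * C * y ^ 2) ^ (2 * Ω + 2) =
        (5 * y ^ 2) ^ Ω * ((5 * y ^ 2) ^ 2 * (5 * y ^ 2) ^ Ω) * C ^ (2 * Ω + 2) := by
      rw [show 5 * C * y ^ 2 = (5 * y ^ 2) * C by ring, mul_pow]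
      congr 1
      rw [show 2 * Ω + 2 = Ω + (2 + Ω) by ring, pow_add, pow_add]
    rw [h4]
    refine mul_le_mul_of_nonneg_right ?_ (by positivity)
    refine mul_le_mul h1 (mul_le_mul h2 h1 (by positivity) (by positivity)) (by positivity)
      (by positivity)
  refine h3.trans ?_
  have hz : 0 < 5 * C * y ^ 2 := by positivity
  rw [← Real.exp_log (pow_pos hz (2 * Ω + 2)), Real.log_pow, Real.rpow_def_of_pos (by linarith),
    Real.exp_le_exp, ← hyd]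
  have h5 : Real.log (5 * C * y ^ 2) ≤ (5 * C * y ^ 2) ^ (δ / 2) / (δ / 2) :=
    Real.log_le_rpow_div hz.le (by positivity)
  have h6 : (5 * C * y ^ 2) ^ (δ / 2) = (5 * C) ^ (δ / 2) * y ^ δ := by
    rw [Real.mul_rpow (by positivity) (by positivity), ← Real.rpow_natCast y 2,
      ← Real.rpow_mul hy0.le]
    congr 2
    push_cast
    ring
  have h7 : ((2 * Ω + 2 : ℕ) : ℝ) ≤ 4 * y ^ β := by
    push_cast
    linarith
  have h8 : 0 ≤ (5 * C * y ^ 2) ^ (δ / 2) / (δ / 2) := by positivity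
  have h9 : K ≤ ε * y ^ δ := by
    have h10 : ((K / ε) ^ (1 / δ)) ^ δ ≤ y ^ δ :=
      Real.rpow_le_rpow (by positivity) hy2 hδ0.le
    rw [← Real.rpow_mul (by positivity), one_div_mul_cancel hδ0.ne', Real.rpow_one,
      div_le_iff₀ hε] at h10
    linarith
  have h11 : y ^ β * y ^ δ * y ^ δ = y := by
    rw [← Real.rpow_add hy0, ← Real.rpow_add hy0]
    have : β + δ + δ = 1 := by rw [hδ]; ring
    rw [this, Real.rpow_one]
  calc ((2 * Ω + 2 : ℕ) : ℝ) * Real.log (5 * C * y ^ 2)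
      ≤ ((2 * Ω + 2 : ℕ) : ℝ) * ((5 * C * y ^ 2) ^ (δ / 2) / (δ / 2)) :=
        mul_le_mul_of_nonneg_left h5 (Nat.cast_nonneg _)
    _ ≤ (4 * y ^ β) * ((5 * C * y ^ 2) ^ (δ / 2) / (δ / 2)) :=
        mul_le_mul_of_nonneg_right h7 h8
    _ = K * (y ^ β * y ^ δ) := by
        rw [h6, hK]
        field_simp
        ring
    _ ≤ (ε * y ^ δ) * (y ^ β * y ^ δ) := mul_le_mul_of_nonneg_right h9 (by positivity)
    _ = ε * (y ^ β * y ^ δ * y ^ δ) := by ring
    _ = y * ε := by rw [h11, mul_comm]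

theorem num_e {X L : ℝ} (hX : 1 ≤ X) (hy : 10 ^ 4 ≤ Real.log X)
    (hL : Real.exp (Real.log X ^ (1 / 2 : ℝ)) ≤ L) :
    ((⌈Real.exp (Real.log (⌈X⌉₊ : ℕ) ^ (1 / 2 : ℝ) / 4)⌉₊ : ℕ) : ℝ) * Real.log X ≤
      L - Real.log 2 := by
  set y : ℝ := Real.log X with hyd
  have hy0 : 0 ≤ y := by linarith
  rw [← Real.sqrt_eq_rpow] at hL
  rw [← Real.sqrt_eq_rpow]
  set u : ℝ := Real.sqrt y with hu
  have hu0 : 0 ≤ u := Real.sqrt_nonneg _
  have huy : u ^ 2 = y := Real.sq_sqrt hy0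
  have hu1 : 100 ≤ u := by
    by_contra h
    rw [not_le] at h
    nlinarith
  have h1 : Real.sqrt (Real.log (⌈X⌉₊ : ℕ)) ≤ u + 1 := by
    rw [Real.sqrt_le_left (by linarith)]
    have h2 := log_ceil hX
    have h3 := Real.log_two_lt_d9
    nlinarith
  set E : ℝ := Real.exp ((u + 1) / 4) with hE
  have hE1 : 1 ≤ E := Real.one_le_exp (by linarith)
  have h2 : ((⌈Real.exp (Real.sqrt (Real.log (⌈X⌉₊ : ℕ)) / 4)⌉₊ : ℕ) : ℝ) ≤ 2 * E := by
    have h3 := Nat.ceil_lt_add_one (Real.exp_pos (Real.sqrt (Real.log (⌈X⌉₊ : ℕ)) / 4)).le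
    have h4 : Real.exp (Real.sqrt (Real.log (⌈X⌉₊ : ℕ)) / 4) ≤ E :=
      Real.exp_le_exp.2 (by linarith)
    linarith
  have h3 : Real.exp u = E * Real.exp ((3 * u - 1) / 4) := by
    rw [hE, ← Real.exp_add]
    congr 1
    ring
  have h4 : ((3 * u - 1) / 4) ^ 3 / 6 ≤ Real.exp ((3 * u - 1) / 4) := by
    have := Real.pow_div_factorial_le_exp ((3 * u - 1) / 4) (by linarith) 3
    simpa [Nat.factorial] using this
  have h5 : 3 * u ^ 2 ≤ ((3 * u - 1) / 4) ^ 3 / 6 := by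
    have h6 : (7 / 10) * u ≤ (3 * u - 1) / 4 := by linarith
    have h7 : ((7 / 10) * u) ^ 3 ≤ ((3 * u - 1) / 4) ^ 3 := pow_le_pow_left₀ (by positivity) h6 3
    have h8 : 100 * u ^ 2 ≤ u ^ 3 := by nlinarith [sq_nonneg u]
    nlinarith
  have h6 : E * (3 * u ^ 2) ≤ Real.exp u := by
    rw [h3]
    exact mul_le_mul_of_nonneg_left (h5.trans h4) (by linarith)
  have h7 : E * u ^ 2 ≥ 1 := by nlinarith
  have h8 := Real.log_two_lt_d9
  calc ((⌈Real.exp (Real.sqrt (Real.log (⌈X⌉₊ : ℕ)) / 4)⌉₊ : ℕ) : ℝ) * y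
      ≤ 2 * E * y := mul_le_mul_of_nonneg_right h2 hy0
    _ = E * (3 * u ^ 2) - E * u ^ 2 := by rw [← huy]; ring
    _ ≤ L - Real.log 2 := by linarith

/-! ## The theorem -/

theorem exists_q {x : Fin 3 → ℤ} (hx : Adm x) {X : ℝ} (hX : 1 ≤ X)
    (hpd : (pd (pr x).primeFactors : ℝ) ≤ X) (hy : 10 ^ 4 ≤ Real.log X)
    (hL : Real.exp (Real.log X ^ (1 / 2 : ℝ)) ≤ Real.log (ht x)) {i : Fin 3}
    (hi : ht x ≤ 2 * (x i).natAbs) : ∃ q ∈ (x i).natAbs.primeFactors,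
      ⌈Real.exp (Real.log (⌈X⌉₊ : ℕ) ^ (1 / 2 : ℝ) / 4)⌉₊ ≤ (x i).natAbs.factorization q := by
  have hy0 : 0 < Real.log X := by linarith
  have hm : (0 : ℝ) < (x i).natAbs := by exact_mod_cast Nat.pos_of_ne_zero (adm_ne hx i)
  have h1 := num_e hX hy hL
  have h2 : Real.log (ht x) ≤ Real.log 2 + Real.log (x i).natAbs := by
    rw [← Real.log_mul (by norm_num) hm.ne']
    exact Real.log_le_log (by exact_mod_cast one_le_ht hx) (by exact_mod_cast hi)
  have h3 : 0 < ⌈Real.exp (Real.log (⌈X⌉₊ : ℕ) ^ (1 / 2 : ℝ) / 4)⌉₊ :=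
    Nat.ceil_pos.2 (Real.exp_pos _)
  have h4 : (0 : ℝ) < ((⌈Real.exp (Real.log (⌈X⌉₊ : ℕ) ^ (1 / 2 : ℝ) / 4)⌉₊ : ℕ) : ℝ) *
      Real.log X := mul_pos (by exact_mod_cast h3) hy0
  have hsub : (x i).natAbs.primeFactors ⊆ (pr x).primeFactors := by
    intro p hp
    obtain ⟨b, c, hab, hac, hbc⟩ := two_other i
    rw [pf_perm hx hab hac hbc, Finset.union_assoc]
    exact Finset.mem_union_left _ hp
  have hP : ∀ p ∈ (pr x).primeFactors, p.Prime := fun p hp => Nat.prime_of_mem_primeFactors hp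
  obtain ⟨q, hq, -, h5⟩ := Pool.Agent.H13.RD.pf_TQC x i (x i).natAbs.primeFactors X
    (Real.log (x i).natAbs) hx (fun l hl => Nat.prime_of_mem_primeFactors hl)
    ((show ((pd (x i).natAbs.primeFactors : ℕ) : ℝ) ≤ pd (pr x).primeFactors by
      exact_mod_cast pd_mono hP hsub).trans hpd) (by linarith)
    (by rw [tp_self (adm_ne hx i)])
  refine ⟨q, hq, ?_⟩
  have h6 : ((⌈Real.exp (Real.log (⌈X⌉₊ : ℕ) ^ (1 / 2 : ℝ) / 4)⌉₊ : ℕ) : ℝ) * Real.log X ≤
      ((x i).natAbs.factorization q : ℝ) * Real.log X := by linarith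
  exact_mod_cast le_of_mul_le_mul_right h6 hy0

theorem pf_TRM (hCNT : T_CNT) (hTHB : T_THB) (hQR : T_QR) (hTFI : T_TFI) : T_TRM := by
  classical
  intro β ε hβ0 hβ hε
  obtain ⟨X₀, hX₀, hcnt⟩ := hCNT β hβ0 hβ
  obtain ⟨X₂, hX₂, hthb⟩ := hTHB
  obtain ⟨C₀, hC₀, hQ⟩ := hQR 0 one_pos
  obtain ⟨C₁, hC₁, htfi⟩ := hTFI ε hε
  obtain ⟨Y₁, hY₁, hnum⟩ := num_fin β ε C₀ hβ0 hβ hε hC₀
  set Y : ℝ := max (max Y₁ (10 ^ 4)) (max (Real.log X₀) (Real.log X₂)) with hYd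
  refine ⟨C₁ * Real.exp Y ^ (2 / 3 + ε) + 1, by positivity, ?_⟩
  intro X hX
  have hX0 : 0 < X := by linarith
  have hfin := (htfi X hX).1
  set SX : Set (Fin 3 → ℤ) := {x | Adm x ∧ (pd (pr x).primeFactors : ℝ) ≤ X ∧
    ((pr x).primeFactors.card : ℝ) ≤ Real.log X ^ β ∧
    Real.exp (Real.log X ^ (1 / 2 : ℝ)) ≤ Real.log (ht x)} with hSX
  have hsub0 : SX ⊆ {x | Adm x ∧ (pd (pr x).primeFactors : ℝ) ≤ X} := fun x hx => ⟨hx.1, hx.2.1⟩
  refine ⟨hfin.subset hsub0, ?_⟩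
  have hXe : 1 ≤ X ^ (1 / 2 + ε) := Real.one_le_rpow hX (by linarith)
  have hCe : 0 ≤ C₁ * Real.exp Y ^ (2 / 3 + ε) := by positivity
  by_cases hXX : X < Real.exp Y
  · have h1 : (SX.ncard : ℝ) ≤ C₁ * X ^ (2 / 3 + ε) :=
      (show ((SX.ncard : ℕ) : ℝ) ≤ ({x | Adm x ∧ (pd (pr x).primeFactors : ℝ) ≤ X}.ncard : ℕ) by
        exact_mod_cast Set.ncard_le_ncard hsub0 hfin).trans (htfi X hX).2
    have h2 : C₁ * X ^ (2 / 3 + ε) ≤ C₁ * Real.exp Y ^ (2 / 3 + ε) :=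
      mul_le_mul_of_nonneg_left (Real.rpow_le_rpow hX0.le hXX.le (by linarith)) hC₁.le
    calc (SX.ncard : ℝ) ≤ C₁ * Real.exp Y ^ (2 / 3 + ε) + 1 := by linarith
      _ ≤ (C₁ * Real.exp Y ^ (2 / 3 + ε) + 1) * X ^ (1 / 2 + ε) :=
        le_mul_of_one_le_right (by linarith) hXe
  · rw [not_lt] at hXX
    have hYy : Y ≤ Real.log X := (Real.le_log_iff_exp_le hX0).2 hXX
    have hy1 : Y₁ ≤ Real.log X := ((le_max_left _ _).trans (le_max_left _ _)).trans hYy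
    have hy4 : (10 : ℝ) ^ 4 ≤ Real.log X :=
      ((le_max_right _ _).trans (le_max_left _ _)).trans hYy
    have hyX₀ : (X₀ : ℝ) ≤ X := by
      have h := ((le_max_left _ _).trans (le_max_right _ _)).trans hYy
      exact (Real.log_le_log_iff (by exact_mod_cast (by omega : 0 < X₀)) hX0).1 h
    have hyX₂ : X₂ ≤ X := by
      have h := ((le_max_right _ _).trans (le_max_right _ _)).trans hYy
      exact (Real.log_le_log_iff (by linarith) hX0).1 h
    set Xn : ℕ := ⌈X⌉₊ with hXn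
    set Ω : ℕ := ⌊Real.log X ^ β⌋₊ with hΩ
    set e : ℕ := ⌈Real.exp (Real.log (Xn : ℕ) ^ (1 / 2 : ℝ) / 4)⌉₊ with he
    set N : ℕ := ((Nat.log 2 Xn + 1) * Ω + 1) ^ Ω with hN
    have hXXn : X ≤ (Xn : ℝ) := Nat.le_ceil X
    have hlog0 : 0 ≤ Real.log X := by linarith
    have hΩle : (Ω : ℝ) ≤ Real.log X ^ β := Nat.floor_le (Real.rpow_nonneg hlog0 _)
    have hΩle' : (Ω : ℝ) ≤ Real.log (Xn : ℕ) ^ β :=
      hΩle.trans (Real.rpow_le_rpow hlog0 (Real.log_le_log hX0 hXXn) hβ0)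
    have hXn0 : X₀ ≤ Xn := by exact_mod_cast hyX₀.trans hXXn
    have hFN : ∀ (q : ℕ) (S : Finset ℕ), q.Prime → q ≤ Xn → (∀ l ∈ S, l.Prime ∧ l ≠ q) →
        (FF Xn q e Ω S).card ≤ N := fun q S hq hqX hS =>
      hcnt Xn q e Ω S (FF Xn q e Ω S) hXn0 hq hqX hΩle' (Nat.le_ceil _) hS
        fun R hR => mem_FF.1 hR
    set Z : ℕ := ⌊Real.sqrt X⌋₊ with hZ
    have hZle : (Z : ℝ) ≤ Real.sqrt X := Nat.floor_le (Real.sqrt_nonneg _)
    have hZX : Z ≤ Xn := by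
      have h1 : Real.sqrt X ≤ X := by
        rw [Real.sqrt_le_left hX0.le]
        nlinarith
      exact_mod_cast hZle.trans (h1.trans hXXn)
    have hcU := card_UU hZX hFN
    have hsub : SX ⊆ ⋃ T ∈ UU Xn e Ω Z, Sol 0 T := by
      rintro x ⟨hx, hpd, hcard, hL⟩
      have hP : ∀ p ∈ (pr x).primeFactors, p.Prime :=
        fun p hp => Nat.prime_of_mem_primeFactors hp
      have hpdn : pd (pr x).primeFactors ≤ Xn := by exact_mod_cast hpd.trans hXXn
      have hcn : (pr x).primeFactors.card ≤ Ω := Nat.le_floor hcard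
      have hht := hthb X x hyX₂ hx hpd
      have hBd : ∀ i p, (x i).natAbs.factorization p ≤ Xn ^ 30 := by
        intro i p
        obtain ⟨b, c, hab, hac, hbc⟩ := two_other i
        have h1 := fac_perm hx hab hac hbc p
        by_cases hp : p ∈ (pr x).primeFactors
        · have h2 := exp_le hx hp
          have h3 : ((pr x).factorization p : ℝ) ≤ (Xn : ℝ) ^ 30 := by
            have h4 : X ^ 30 ≤ (Xn : ℝ) ^ 30 := pow_le_pow_left₀ hX0.le hXXn 30
            have h5 : 5 * X ^ 20 ≤ X ^ 30 := by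
              have h6 : (2 : ℝ) ≤ X := hX₂.trans hyX₂
              have h7 : (2 : ℝ) ^ 10 ≤ X ^ 10 := pow_le_pow_left₀ (by norm_num) h6 10
              have h8 : 0 < X ^ 20 := by positivity
              have h9 : X ^ 30 = X ^ 10 * X ^ 20 := by ring
              rw [h9]
              nlinarith
            linarith
          have h4 : (pr x).factorization p ≤ Xn ^ 30 := by exact_mod_cast h3
          omega
        · have h2 := fac_zero hp
          omega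
      obtain ⟨a, b, hab, ha, hb⟩ := two_large hx
      obtain ⟨c, hac, hbc⟩ := third a b
      obtain ⟨qa, hqa, hea⟩ := exists_q hx hX hpd hy4 hL ha
      obtain ⟨qb, hqb, heb⟩ := exists_q hx hX hpd hy4 hL hb
      have hne : qa ≠ qb := by
        rintro rfl
        exact Finset.disjoint_left.1 (adm_cop hx hab).disjoint_primeFactors hqa hqb
      have hprod : (qa : ℝ) * qb ≤ X := by
        have h1 : ({qa, qb} : Finset ℕ) ⊆ (pr x).primeFactors := by
          rw [pf_perm hx hab hac hbc]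
          intro p hp
          rw [Finset.mem_insert, Finset.mem_singleton] at hp
          rcases hp with rfl | rfl
          · exact Finset.mem_union_left _ (Finset.mem_union_left _ hqa)
          · exact Finset.mem_union_left _ (Finset.mem_union_right _ hqb)
        have h2 := pd_mono hP h1
        have h3 : pd ({qa, qb} : Finset ℕ) = qa * qb := by
          unfold pd
          exact Finset.prod_pair hne
        rw [h3] at h2
        exact (show (qa : ℝ) * qb ≤ (pd (pr x).primeFactors : ℕ) by exact_mod_cast h2).trans hpd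
      have hmem : ∀ (a b c : Fin 3) (q q' : ℕ), a ≠ b → a ≠ c → b ≠ c →
          q ∈ (x a).natAbs.primeFactors → e ≤ (x a).natAbs.factorization q →
          q' ∈ (x b).natAbs.primeFactors → e ≤ (x b).natAbs.factorization q' →
          (q : ℝ) ≤ Real.sqrt X → x ∈ ⋃ T ∈ UU Xn e Ω Z, Sol 0 T := by
        intro a b c q q' hab hac hbc hq hqe hq' hqe' hqX
        obtain ⟨R₁, R₂, h1, h2, h3, h4⟩ := core hx hab hac hbc hpdn hcn hBd hq hqe hq' hqe'
        rw [Set.mem_iUnion₂]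
        refine ⟨insert q (R₁ ∪ R₂), mem_UU.2 ⟨q, Nat.prime_of_mem_primeFactors hq,
          Nat.le_floor hqX, R₁, h1, q', h2, R₂, h3, rfl⟩, hx, ?_⟩
        have h5 : tp (insert q (R₁ ∪ R₂)) (pr x) = pr x := tp_of_sub (adm_pr hx) h4
        rw [Real.rpow_zero, one_mul, h5]
      rcases le_or_gt (qa : ℝ) (Real.sqrt X) with h | h
      · exact hmem a b c qa qb hab hac hbc hqa hea hqb heb h
      · refine hmem b a c qb qa hab.symm hbc hac hqb heb hqa hea ?_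
        by_contra h'
        rw [not_le] at h'
        have h1 : X < (qa : ℝ) * qb := by
          have h2 := Real.mul_self_sqrt hX0.le
          have h3 := Real.sqrt_nonneg X
          nlinarith
        linarith
    obtain ⟨hU, hUc⟩ := union_card (UU Xn e Ω Z) (fun T => Sol 0 T)
      (fun _ => C₀ ^ (2 * Ω + 2)) (by
        intro T hT
        obtain ⟨h1, h2⟩ := UU_data hT
        exact ⟨(hQ T h1).1, (hQ T h1).2.trans (pow_le_pow_right₀ hC₀ h2)⟩)
    have h1 : (SX.ncard : ℝ) ≤ ((⋃ T ∈ UU Xn e Ω Z, Sol 0 T).ncard : ℕ) := by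
      exact_mod_cast Set.ncard_le_ncard hsub hU
    rw [Finset.sum_const, nsmul_eq_mul] at hUc
    have h2 : ((UU Xn e Ω Z).card : ℝ) ≤ Real.sqrt X * ((N * (Ω * N) : ℕ) : ℝ) := by
      refine (show ((UU Xn e Ω Z).card : ℝ) ≤ (Z : ℝ) * ((N * (Ω * N) : ℕ) : ℝ) by
        exact_mod_cast hcU).trans ?_
      exact mul_le_mul_of_nonneg_right hZle (Nat.cast_nonneg _)
    have h3 := hnum X Ω hX hy1 hΩle
    calc (SX.ncard : ℝ) ≤ ((UU Xn e Ω Z).card : ℝ) * C₀ ^ (2 * Ω + 2) := h1.trans hUc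
      _ ≤ Real.sqrt X * ((N * (Ω * N) : ℕ) : ℝ) * C₀ ^ (2 * Ω + 2) :=
          mul_le_mul_of_nonneg_right h2 (by positivity)
      _ = Real.sqrt X * (((N * (Ω * N) : ℕ) : ℝ) * C₀ ^ (2 * Ω + 2)) := by ring
      _ ≤ Real.sqrt X * X ^ ε := mul_le_mul_of_nonneg_left h3 (Real.sqrt_nonneg _)
      _ = X ^ (1 / 2 + ε) := by rw [Real.sqrt_eq_rpow, ← Real.rpow_add hX0]
      _ ≤ (C₁ * Real.exp Y ^ (2 / 3 + ε) + 1) * X ^ (1 / 2 + ε) :=
          le_mul_of_one_le_left (by linarith) (by linarith)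

end Pool.Agent.H93.AB
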